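import Pool.Agent.Helper10.RS.Goals

/-!
Packet MUEQ of project RS.
-/

open Finset

namespace Pool.Agent.Helper22.RS

open Pool.Agent.Helper10.RS

universe u v

theorem sing_add_reg (G : Type u) [Group G] [Finite G] (r : ℕ) :
    sing G r + reg G r = Nat.card G := by
  classical
  unfold sing reg
  rw [← Nat.card_sum]
  exact Nat.card_congr (Equiv.sumCompl (fun g : G => r ∣ orderOf g))

theorem reg_of_not_dvd (G : Type u) [Group G] [Finite G] (r : ℕ) (h : ¬ r ∣ Nat.card G) :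
    reg G r = Nat.card G := by
  unfold reg
  refine Nat.card_congr (Equiv.subtypeUnivEquiv ?_)
  intro g hg
  exact h (hg.trans (orderOf_dvd_natCard g))

theorem mu_eq (G : Type u) [Group G] [Finite G] (r : ℕ) :
    mu G r = 1 - (reg G r : ℚ) / (Nat.card G : ℚ) := by
  have h := sing_add_reg G r
  have hn : (Nat.card G : ℚ) ≠ 0 := by exact_mod_cast Nat.card_pos.ne'
  unfold mu
  rw [eq_sub_iff_add_eq, ← add_div, div_eq_one_iff_eq hn]
  exact_mod_cast h

theorem mu_den (G : Type u) [Group G] [Finite G]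
    (h : ∀ p : ℕ, p.Prime → (ordCompl[p] (Nat.card G)) ∣ reg G p ∧ ¬ p ∣ reg G p)
    (r : ℕ) (hr : r.Prime) : (mu G r).den = ordProj[r] (Nat.card G) := by
  obtain ⟨⟨t, ht⟩, h2⟩ := h r hr
  have hn : Nat.card G ≠ 0 := Nat.card_pos.ne'
  have hRC : ordProj[r] (Nat.card G) * ordCompl[r] (Nat.card G) = Nat.card G :=
    Nat.ordProj_mul_ordCompl_eq_self _ _
  have hrt : ¬ r ∣ t := fun hd => h2 (ht ▸ hd.mul_left _)
  set R := ordProj[r] (Nat.card G) with hR
  set C := ordCompl[r] (Nat.card G) with hC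
  have hRpos : 0 < R := Nat.ordProj_pos _ _
  have hCpos : 0 < C := Nat.ordCompl_pos r hn
  have hcop : Nat.Coprime t R := by
    rw [hR]
    exact Nat.Coprime.pow_right _ ((Nat.Prime.coprime_iff_not_dvd hr).2 hrt).symm
  have hRq : (R : ℚ) ≠ 0 := by exact_mod_cast hRpos.ne'
  have hCq : (C : ℚ) ≠ 0 := by exact_mod_cast hCpos.ne'
  have hmu : mu G r = (((R : ℤ) - (t : ℤ) : ℤ) : ℚ) / ((R : ℤ) : ℚ) := by
    rw [mu_eq, ht, ← hRC]
    push_cast
    field_simp
  have hc : Nat.Coprime ((R : ℤ) - (t : ℤ)).natAbs ((R : ℤ)).natAbs := by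
    rw [← Int.isCoprime_iff_nat_coprime]
    have hi : IsCoprime (t : ℤ) (R : ℤ) := Nat.isCoprime_iff_coprime.2 hcop
    obtain ⟨a, b, hab⟩ := hi
    refine ⟨-a, a + b, ?_⟩
    linear_combination hab
  have h3 := Rat.den_div_eq_of_coprime (a := (R : ℤ) - (t : ℤ)) (b := (R : ℤ))
    (by exact_mod_cast hRpos) hc
  rw [hmu]
  exact_mod_cast h3

theorem step (G : Type u) (H : Type v) [Group G] [Group H] [Finite G] [Finite H]
    (hG : ∀ p : ℕ, p.Prime → (ordCompl[p] (Nat.card G)) ∣ reg G p ∧ ¬ p ∣ reg G p)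
    (hH : ∀ p : ℕ, p.Prime → (ordCompl[p] (Nat.card H)) ∣ reg H p ∧ ¬ p ∣ reg H p)
    (hs : muSet G = muSet H) (r : ℕ) (hr : r.Prime) (hd : r ∣ Nat.card G) :
    r ∣ Nat.card H ∧ (Nat.card G).factorization r = (Nat.card H).factorization r ∧
      mu G r = mu H r := by
  have h1 : mu G r ∈ muSet G := ⟨r, hr, hd, rfl⟩
  rw [hs] at h1
  obtain ⟨s, hsp, hsd, hms⟩ := h1
  have h2 := mu_den G hG r hr
  have h3 := mu_den H hH s hsp
  rw [hms, h3] at h2
  -- h2 : ordProj[s] |H| = ordProj[r] |G|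
  have h4 : r ∣ ordProj[r] (Nat.card G) := by
    refine dvd_pow_self r ?_
    exact (hr.factorization_pos_of_dvd Nat.card_pos.ne' hd).ne'
  rw [← h2] at h4
  have h5 : r = s := (Nat.prime_dvd_prime_iff_eq hr hsp).1 (hr.dvd_of_dvd_pow h4)
  subst h5
  exact ⟨hsd, (Nat.pow_right_injective hr.two_le h2).symm, hms⟩

theorem p_mueq : MUEQ.{u, v} := by
  intro hU hV G H _ _ _ _ hs
  have hG := fun (p : ℕ) (hp : p.Prime) => hU G p hp
  have hH := fun (p : ℕ) (hp : p.Prime) => hV H p hp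
  have hst := step G H hG hH hs
  have hst' := step H G hH hG hs.symm
  have hcard : Nat.card G = Nat.card H := by
    refine Nat.eq_of_factorization_eq Nat.card_pos.ne' Nat.card_pos.ne' ?_
    intro p
    by_cases hp : p.Prime
    · by_cases hd : p ∣ Nat.card G
      · exact (hst p hp hd).2.1
      · have hd' : ¬ p ∣ Nat.card H := fun h => hd (hst' p hp h).1
        rw [Nat.factorization_eq_zero_of_not_dvd hd, Nat.factorization_eq_zero_of_not_dvd hd']
    · rw [Nat.factorization_eq_zero_of_not_prime _ hp, Nat.factorization_eq_zero_of_not_prime _ hp]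
  refine ⟨hcard, ?_⟩
  intro p hp
  by_cases hd : p ∣ Nat.card G
  · have h1 := (hst p hp hd).2.2
    rw [mu_eq, mu_eq, ← hcard] at h1
    have hn : (Nat.card G : ℚ) ≠ 0 := by exact_mod_cast Nat.card_pos.ne'
    have h2 : (reg G p : ℚ) / (Nat.card G : ℚ) = (reg H p : ℚ) / (Nat.card G : ℚ) := by linarith
    have h3 := (div_left_inj' hn).1 h2
    exact_mod_cast h3
  · have hd' : ¬ p ∣ Nat.card H := by rwa [← hcard]
    rw [reg_of_not_dvd G p hd, reg_of_not_dvd H p hd', hcard]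

end Pool.Agent.Helper22.RS
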